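import Pool.Agent.Helper75.GR.Stmts

/-! Module LAW (helper70): the law of a marginal with a star shaped density. -/

open Finset MeasureTheory Filter Topology Matrix
open scoped ENNReal ContDiff

namespace Pool.Agent.Helper70.GR

open Pool.Agent.Helper44.GF Pool.Agent.Helper44.GN Pool.Agent.Helper44.GH

/-! ## One crossing -/

theorem law_cross (f g K : ℝ → ℝ) (hf : IntegrableOn f (Set.Ioi 0))
    (hg : IntegrableOn g (Set.Ioi 0))
    (hK : IntegrableOn (fun t => K t * (f t - g t)) (Set.Ioi 0))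
    (he : ∫ t in Set.Ioi (0 : ℝ), f t = ∫ t in Set.Ioi (0 : ℝ), g t)
    (hm : ∀ t u, 0 < t → t ≤ u → K t ≤ K u)
    (hc : ∀ t u, 0 < t → t ≤ u → g u ≤ f u → g t ≤ f t) :
    ∫ t in Set.Ioi (0 : ℝ), K t * (f t - g t) ≤ 0 := by
  have hD : IntegrableOn (fun t => f t - g t) (Set.Ioi 0) := hf.sub hg
  have hD0 : ∫ t in Set.Ioi (0 : ℝ), (f t - g t) = 0 := by
    rw [integral_sub hf hg, he, sub_self]
  -- the case of a constant sign
  have hzero : (∀ᵐ t ∂(volume.restrict (Set.Ioi (0 : ℝ))), f t - g t = 0) →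
      ∫ t in Set.Ioi (0 : ℝ), K t * (f t - g t) ≤ 0 := by
    intro h
    have : ∫ t in Set.Ioi (0 : ℝ), K t * (f t - g t) = ∫ t in Set.Ioi (0 : ℝ), (0 : ℝ) := by
      refine integral_congr_ae ?_
      filter_upwards [h] with t ht
      rw [ht, mul_zero]
    rw [this, integral_zero]
  by_cases h1 : ∀ t, 0 < t → g t ≤ f t
  · apply hzero
    have h2 : 0 ≤ᵐ[volume.restrict (Set.Ioi (0 : ℝ))] fun t => f t - g t := by
      filter_upwards [ae_restrict_mem measurableSet_Ioi] with t ht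
      exact sub_nonneg.2 (h1 t ht)
    have h3 := (integral_eq_zero_iff_of_nonneg_ae h2 hD).1 hD0
    filter_upwards [h3] with t ht
    exact ht
  by_cases h2 : ∀ t, 0 < t → f t < g t
  · apply hzero
    have h3 : 0 ≤ᵐ[volume.restrict (Set.Ioi (0 : ℝ))] fun t => g t - f t := by
      filter_upwards [ae_restrict_mem measurableSet_Ioi] with t ht
      exact sub_nonneg.2 (h2 t ht).le
    have h4 : ∫ t in Set.Ioi (0 : ℝ), (g t - f t) = 0 := by
      rw [integral_sub hg hf, he, sub_self]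
    have h5 := (integral_eq_zero_iff_of_nonneg_ae h3 (hg.sub hf)).1 h4
    filter_upwards [h5] with t ht
    have : g t - f t = 0 := ht
    linarith
  · push Not at h1 h2
    obtain ⟨b, hb, hb1⟩ := h1
    obtain ⟨a, ha, ha1⟩ := h2
    obtain ⟨S, hS⟩ : ∃ S : Set ℝ, S = {t | 0 < t ∧ g t ≤ f t} := ⟨_, rfl⟩
    have haS : a ∈ S := by
      rw [hS]
      exact ⟨ha, ha1⟩
    have hbd : ∀ t ∈ S, t ≤ b := by
      intro t ht
      rw [hS] at ht
      by_contra hcon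
      push Not at hcon
      have := hc b t hb hcon.le ht.2
      linarith
    have hBA : BddAbove S := ⟨b, hbd⟩
    obtain ⟨c, hcd⟩ : ∃ c : ℝ, c = sSup S := ⟨_, rfl⟩
    have hac : a ≤ c := by
      rw [hcd]
      exact le_csSup hBA haS
    have hc0 : 0 < c := lt_of_lt_of_le ha hac
    have hlow : ∀ t, 0 < t → t < c → g t ≤ f t := by
      intro t ht htc
      rw [hcd] at htc
      obtain ⟨u, huS, hu⟩ := exists_lt_of_lt_csSup ⟨a, haS⟩ htc
      rw [hS] at huS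
      exact hc t u ht hu.le huS.2
    have hup : ∀ t, c < t → f t < g t := by
      intro t ht
      by_contra hcon
      push Not at hcon
      have : t ∈ S := by
        rw [hS]
        exact ⟨hc0.trans ht, hcon⟩
      have := le_csSup hBA this
      rw [← hcd] at this
      linarith
    have e1 : ∫ t in Set.Ioi (0 : ℝ), K t * (f t - g t)
        = ∫ t in Set.Ioi (0 : ℝ), (K t * (f t - g t) - K c * (f t - g t)) := by
      rw [integral_sub hK (hD.const_mul _), integral_const_mul, hD0, mul_zero, sub_zero]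
    rw [e1]
    refine integral_nonpos_of_ae ?_
    filter_upwards [ae_restrict_mem measurableSet_Ioi] with t ht
    have ht' : (0 : ℝ) < t := ht
    have e2 : K t * (f t - g t) - K c * (f t - g t) = (K t - K c) * (f t - g t) := by ring
    rw [e2]
    rcases lt_trichotomy t c with h | h | h
    · exact mul_nonpos_of_nonpos_of_nonneg (sub_nonpos.2 (hm t c ht' h.le))
        (sub_nonneg.2 (hlow t ht' h))
    · rw [h, sub_self, zero_mul]
      exact le_rfl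
    · exact mul_nonpos_of_nonneg_of_nonpos (sub_nonneg.2 (hm c t hc0 h.le))
        (sub_nonpos.2 (hup t h).le)

/-! ## The extremal law -/

theorem law_ext {l : ℝ} (hl : 0 < l) {q : ℝ} (hq : -1 < q) :
    IntegrableOn (fun t : ℝ => t ^ q * Real.exp (-l * t ^ (3 / 2 : ℝ))) (Set.Ioi 0) ∧
    ∫ t in Set.Ioi (0 : ℝ), t ^ q * Real.exp (-l * t ^ (3 / 2 : ℝ))
      = l ^ (-(q + 1) / (3 / 2)) * (1 / (3 / 2)) * Real.Gamma ((q + 1) / (3 / 2)) := by
  refine ⟨?_, integral_rpow_mul_exp_neg_mul_rpow (by norm_num) hq hl⟩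
  exact integrableOn_rpow_mul_exp_neg_mul_rpow hq (by norm_num) hl

/-! ## The kernel -/

theorem law_ker {c w v : ℝ} (hc : 0 < c) (hw : 0 < w) (hv : w ≤ v) :
    w ^ 2 - 3 * c * w + 3 * c ^ 2 - c ^ 3 / w ≤ v ^ 2 - 3 * c * v + 3 * c ^ 2 - c ^ 3 / v := by
  have hv0 : 0 < v := lt_of_lt_of_le hw hv
  have h1 : 0 ≤ v * w * (v + w - 3 * c) + c ^ 3 := by
    have hs : 0 < v + w := by positivity
    rcases le_total (3 * c) (v + w) with h | h
    · have : 0 ≤ v + w - 3 * c := by linarith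
      positivity
    · have h2 : v * w ≤ (v + w) ^ 2 / 4 := by nlinarith [sq_nonneg (v - w)]
      have h3 : (v + w) ^ 2 / 4 * (v + w - 3 * c) ≤ v * w * (v + w - 3 * c) := by
        have : v + w - 3 * c ≤ 0 := by linarith
        nlinarith
      have h4 : 0 ≤ (v + w - 2 * c) ^ 2 * (v + w + c) := by positivity
      nlinarith
  have h2 : (v ^ 2 - 3 * c * v + 3 * c ^ 2 - c ^ 3 / v)
      - (w ^ 2 - 3 * c * w + 3 * c ^ 2 - c ^ 3 / w)
      = (v - w) * (v * w * (v + w - 3 * c) + c ^ 3) / (v * w) := by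
    field_simp
    ring
  have h3 : 0 ≤ (v - w) * (v * w * (v + w - 3 * c) + c ^ 3) / (v * w) := by
    have : 0 ≤ v - w := by linarith
    positivity
  linarith

theorem law_phi {x y : ℝ} (hx : 0 < x) (hxy : x ≤ y) (hy : y ≤ 1) :
    y ^ 2 + (y⁻¹) ^ 2 + 6 - 4 * y - 4 * y⁻¹ ≤ x ^ 2 + (x⁻¹) ^ 2 + 6 - 4 * x - 4 * x⁻¹ := by
  have hy0 : 0 < y := lt_of_lt_of_le hx hxy
  have h1 : y + y⁻¹ ≤ x + x⁻¹ := by
    have h2 : (x + x⁻¹) - (y + y⁻¹) = (y - x) * (1 - x * y) / (x * y) := by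
      field_simp
      ring
    have h3 : 0 ≤ (y - x) * (1 - x * y) / (x * y) := by
      have h4 : x * y ≤ 1 := by nlinarith
      have h5 : 0 ≤ y - x := by linarith
      have h6 : 0 ≤ 1 - x * y := by linarith
      positivity
    linarith
  have h2 : 2 ≤ y + y⁻¹ := by
    have h3 : y + y⁻¹ - 2 = (y - 1) ^ 2 / y := by
      field_simp
      ring
    have h4 : 0 ≤ (y - 1) ^ 2 / y := by positivity
    linarith
  have e1 : y ^ 2 + (y⁻¹) ^ 2 + 6 - 4 * y - 4 * y⁻¹ = (y + y⁻¹ - 2) ^ 2 := by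
    field_simp
    ring
  have e2 : x ^ 2 + (x⁻¹) ^ 2 + 6 - 4 * x - 4 * x⁻¹ = (x + x⁻¹ - 2) ^ 2 := by
    field_simp
    ring
  rw [e1, e2]
  exact pow_le_pow_left₀ (by linarith) (by linarith) 2

theorem law_lin (p A B C D : ℝ → ℝ) (h0 : IntegrableOn p (Set.Ioi 0))
    (hA : IntegrableOn (fun t => A t * p t) (Set.Ioi 0))
    (hB : IntegrableOn (fun t => B t * p t) (Set.Ioi 0))
    (hC : IntegrableOn (fun t => C t * p t) (Set.Ioi 0))
    (hD : IntegrableOn (fun t => D t * p t) (Set.Ioi 0)) (a b c d e : ℝ) :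
    IntegrableOn (fun t => (a * A t + b * B t + e + c * C t + d * D t) * p t) (Set.Ioi 0) ∧
    ∫ t in Set.Ioi (0 : ℝ), (a * A t + b * B t + e + c * C t + d * D t) * p t
      = a * (∫ t in Set.Ioi (0 : ℝ), A t * p t) + b * (∫ t in Set.Ioi (0 : ℝ), B t * p t)
        + e * (∫ t in Set.Ioi (0 : ℝ), p t) + c * (∫ t in Set.Ioi (0 : ℝ), C t * p t)
        + d * (∫ t in Set.Ioi (0 : ℝ), D t * p t) := by
  have e1 : (fun t => (a * A t + b * B t + e + c * C t + d * D t) * p t)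
      = fun t => a * (A t * p t) + (b * (B t * p t) + (e * p t + (c * (C t * p t)
        + d * (D t * p t)))) := by
    funext t
    ring
  have i4 : IntegrableOn (fun t => c * (C t * p t) + d * (D t * p t)) (Set.Ioi 0) :=
    (hC.const_mul c).add (hD.const_mul d)
  have i3 : IntegrableOn (fun t => e * p t + (c * (C t * p t) + d * (D t * p t)))
      (Set.Ioi 0) := (h0.const_mul e).add i4
  have i2 : IntegrableOn (fun t => b * (B t * p t) + (e * p t + (c * (C t * p t)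
      + d * (D t * p t)))) (Set.Ioi 0) := (hB.const_mul b).add i3
  rw [e1]
  refine ⟨(hA.const_mul a).add i2, ?_⟩
  rw [integral_add (hA.const_mul a) i2, integral_add (hB.const_mul b) i3,
    integral_add (h0.const_mul e) i4, integral_add (hC.const_mul c) (hD.const_mul d),
    integral_const_mul, integral_const_mul, integral_const_mul, integral_const_mul,
    integral_const_mul]
  ring

/-- The replacement of one of the two laws. -/
theorem law_pair (w : ℝ → ℝ) (hw : ∀ t, 0 < t → 0 ≤ w t)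
    (wi : ∀ q : ℝ, -1 ≤ q → IntegrableOn (fun t => t ^ q * w t) (Set.Ioi 0)) (x y z : ℝ)
    (h : ∀ c : ℝ, 0 < c → x - 3 * c * y - c ^ 3 * z ≤ 0) :
    x * (∫ t in Set.Ioi (0 : ℝ), t ^ (-1 : ℝ) * w t)
      - 3 * y * (∫ t in Set.Ioi (0 : ℝ), t ^ (-(1 / 2) : ℝ) * w t)
      - z * (∫ t in Set.Ioi (0 : ℝ), t ^ (1 / 2 : ℝ) * w t) ≤ 0 := by
  have i1 := (wi (-1) le_rfl).const_mul x
  have i2 := (wi (-(1 / 2)) (by norm_num)).const_mul (3 * y)
  have i3 := (wi (1 / 2) (by norm_num)).const_mul z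
  have e1 : x * (∫ t in Set.Ioi (0 : ℝ), t ^ (-1 : ℝ) * w t)
      - 3 * y * (∫ t in Set.Ioi (0 : ℝ), t ^ (-(1 / 2) : ℝ) * w t)
      - z * (∫ t in Set.Ioi (0 : ℝ), t ^ (1 / 2 : ℝ) * w t)
      = ∫ t in Set.Ioi (0 : ℝ), (x * (t ^ (-1 : ℝ) * w t)
        - 3 * y * (t ^ (-(1 / 2) : ℝ) * w t) - z * (t ^ (1 / 2 : ℝ) * w t)) := by
    have i4 : IntegrableOn (fun t : ℝ => x * (t ^ (-1 : ℝ) * w t)
        - 3 * y * (t ^ (-(1 / 2) : ℝ) * w t)) (Set.Ioi 0) := i1.sub i2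
    rw [integral_sub i4 i3, integral_sub i1 i2, integral_const_mul, integral_const_mul,
      integral_const_mul]
  rw [e1]
  refine integral_nonpos_of_ae ?_
  filter_upwards [ae_restrict_mem measurableSet_Ioi] with t ht
  have ht' : (0 : ℝ) < t := ht
  have hc : 0 < t ^ (1 / 2 : ℝ) := Real.rpow_pos_of_pos ht' _
  have e2 : t ^ (-1 : ℝ) = ((t ^ (1 / 2 : ℝ))⁻¹) ^ 2 := by
    rw [← Real.rpow_neg ht'.le, ← Real.rpow_natCast, ← Real.rpow_mul ht'.le]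
    norm_num
  have e3 : t ^ (-(1 / 2) : ℝ) = (t ^ (1 / 2 : ℝ))⁻¹ := Real.rpow_neg ht'.le _
  have h1 := h _ hc
  rw [e2, e3]
  have e4 : x * (((t ^ (1 / 2 : ℝ))⁻¹) ^ 2 * w t)
      - 3 * y * ((t ^ (1 / 2 : ℝ))⁻¹ * w t) - z * (t ^ (1 / 2 : ℝ) * w t)
      = (x - 3 * t ^ (1 / 2 : ℝ) * y - (t ^ (1 / 2 : ℝ)) ^ 3 * z)
        * (((t ^ (1 / 2 : ℝ))⁻¹) ^ 2 * w t) := by
    field_simp
  have e5 : (x - 3 * t ^ (1 / 2 : ℝ) * y - (t ^ (1 / 2 : ℝ)) ^ 3 * z)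
        * (((t ^ (1 / 2 : ℝ))⁻¹) ^ 2 * w t) ≤ 0 :=
    mul_nonpos_of_nonpos_of_nonneg h1 (mul_nonneg (sq_nonneg _) (hw t ht'))
  rw [e4]
  exact e5

theorem law_main (f p R : ℝ → ℝ) (a b : ℝ) (f0 : 0 < f 0) (fp : ∀ t, 0 < t → 0 < f t)
    (fi : ∀ q : ℝ, -1 < q → IntegrableOn (fun t => t ^ q * f t) (Set.Ioi 0))
    (pp : ∀ t, 0 < t → 0 ≤ p t) (pc : ContinuousOn p (Set.Ioi 0))
    (pI : ∀ q : ℝ, -1 ≤ q → IntegrableOn (fun t => t ^ q * p t) (Set.Ioi 0))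
    (hm : ∀ q : ℝ, -1 < q → ∫ t in Set.Ioi (0 : ℝ), t ^ q * p t
      = 2 * (q + 1) * ∫ t in Set.Ioi (0 : ℝ), t ^ q * f t)
    (hm1 : ∫ t in Set.Ioi (0 : ℝ), t ^ (-1 : ℝ) * p t = 2 * f 0)
    (h0 : ∫ t in Set.Ioi (0 : ℝ), p t = 1)
    (hst : ∀ t u : ℝ, 0 < t → t ≤ u → Real.log (f 0 / f t) * u ^ (3 / 2 : ℝ)
      ≤ Real.log (f 0 / f u) * t ^ (3 / 2 : ℝ))
    (Rc : ContinuousOn R (Set.Ioi 0)) (ha : 0 < a) (hR : ∀ t, 0 < t → a ≤ R t ∧ R t ≤ b)
    (hR1 : ∀ t u, 0 < t → t ≤ u → R u ≤ R t)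
    (hR2 : ∀ t u, 0 < t → t ≤ u → t ^ (1 / 2 : ℝ) * R t ≤ u ^ (1 / 2 : ℝ) * R u) :
    2 * (∫ t in Set.Ioi (0 : ℝ), R t ^ 2 * p t) * (∫ t in Set.Ioi (0 : ℝ), ((R t)⁻¹) ^ 2 * p t)
      + 6 - 8 * (∫ t in Set.Ioi (0 : ℝ), R t * p t) * (∫ t in Set.Ioi (0 : ℝ), (R t)⁻¹ * p t)
      ≤ 6 - 16 / 3 * (Real.Gamma (4 / 3) / Real.Gamma (5 / 3) ^ 2) := by
  obtain ⟨M, hM⟩ : ∃ M : ℝ → ℝ, ∀ q, M q = ∫ t in Set.Ioi (0 : ℝ), t ^ q * p t :=
    ⟨_, fun q => rfl⟩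
  obtain ⟨N, hN⟩ : ∃ N : ℝ → ℝ, ∀ q, N q = ∫ t in Set.Ioi (0 : ℝ), t ^ q * f t :=
    ⟨_, fun q => rfl⟩
  have ez : ∀ w : ℝ → ℝ, (fun t : ℝ => t ^ (0 : ℝ) * w t) = w := by
    intro w
    funext t
    rw [Real.rpow_zero, one_mul]
  have fI : IntegrableOn f (Set.Ioi 0) := by
    have := fi 0 (by norm_num)
    rwa [ez] at this
  have pI0 : IntegrableOn p (Set.Ioi 0) := by
    have := pI 0 (by norm_num)
    rwa [ez] at this
  have hf0 : ∫ t in Set.Ioi (0 : ℝ), f t = 1 / 2 := by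
    have := hm 0 (by norm_num)
    rw [ez, ez, h0] at this
    linarith
  have hG : 0 < Real.Gamma (5 / 3) := Real.Gamma_pos_of_pos (by norm_num)
  have hG4 : 0 < Real.Gamma (4 / 3) := Real.Gamma_pos_of_pos (by norm_num)
  obtain ⟨s, hs⟩ : ∃ s : ℝ, s = 2 * f 0 * Real.Gamma (5 / 3) := ⟨_, rfl⟩
  have hs0 : 0 < s := by
    rw [hs]
    positivity
  obtain ⟨l, hl⟩ : ∃ l : ℝ, l = s ^ (3 / 2 : ℝ) := ⟨_, rfl⟩
  have hl0 : 0 < l := by
    rw [hl]
    positivity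
  have hls : ∀ x : ℝ, l ^ x = s ^ (3 / 2 * x) := by
    intro x
    rw [hl, ← Real.rpow_mul hs0.le]
  -- the extremal density
  obtain ⟨g, hg⟩ : ∃ g : ℝ → ℝ, ∀ t, g t = f 0 * Real.exp (-l * t ^ (3 / 2 : ℝ)) :=
    ⟨_, fun t => rfl⟩
  have gq : ∀ q : ℝ, (fun t : ℝ => t ^ q * g t)
      = fun t => f 0 * (t ^ q * Real.exp (-l * t ^ (3 / 2 : ℝ))) := by
    intro q
    funext t
    rw [hg]
    ring
  have gi : ∀ q : ℝ, -1 < q → IntegrableOn (fun t => t ^ q * g t) (Set.Ioi 0) := by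
    intro q hq
    rw [gq]
    exact (law_ext hl0 hq).1.const_mul _
  have gN : ∀ q : ℝ, -1 < q → ∫ t in Set.Ioi (0 : ℝ), t ^ q * g t
      = f 0 * s ^ (-(q + 1)) * (2 / 3 * Real.Gamma (2 / 3 * (q + 1))) := by
    intro q hq
    rw [gq, integral_const_mul, (law_ext hl0 hq).2, hls,
      show 3 / 2 * (-(q + 1) / (3 / 2)) = -(q + 1) by ring,
      show (q + 1) / (3 / 2) = 2 / 3 * (q + 1) by ring]
    ring
  have gI : IntegrableOn g (Set.Ioi 0) := by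
    have := gi 0 (by norm_num)
    rwa [ez] at this
  have g0 : ∫ t in Set.Ioi (0 : ℝ), g t = 1 / 2 := by
    have h1 := gN 0 (by norm_num)
    rw [ez] at h1
    have h2 : Real.Gamma (5 / 3) = 2 / 3 * Real.Gamma (2 / 3) := by
      rw [← Real.Gamma_add_one (by norm_num : (2 / 3 : ℝ) ≠ 0)]
      norm_num
    rw [h1, show (2 / 3 : ℝ) * (0 + 1) = 2 / 3 by norm_num, ← h2,
      show (-(0 + 1) : ℝ) = -1 by norm_num, Real.rpow_neg_one, hs]
    field_simp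
  -- the two point kernel
  obtain ⟨L, hL⟩ : ∃ L : ℝ → ℝ, ∀ q, L q = ∫ t in Set.Ioi (0 : ℝ), t ^ q * g t :=
    ⟨_, fun q => rfl⟩
  have hker : ∀ c : ℝ, 0 < c → (N 1 - L 1) - 3 * c * (N (1 / 2) - L (1 / 2))
      - c ^ 3 * (N (-(1 / 2)) - L (-(1 / 2))) ≤ 0 := by
    intro c hc
    obtain ⟨K, hK⟩ : ∃ K : ℝ → ℝ, ∀ t, K t = t ^ (1 : ℝ) - 3 * c * t ^ (1 / 2 : ℝ)
        + 3 * c ^ 2 - c ^ 3 * t ^ (-(1 / 2) : ℝ) := ⟨_, fun t => rfl⟩
    have hi : ∀ q : ℝ, -1 < q → IntegrableOn (fun t => t ^ q * (f t - g t)) (Set.Ioi 0) := by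
      intro q hq
      have h1 := (fi q hq).sub (gi q hq)
      refine h1.congr_fun (fun t _ => ?_) measurableSet_Ioi
      simp only [Pi.sub_apply]
      ring
    have hv : ∀ q : ℝ, -1 < q → ∫ t in Set.Ioi (0 : ℝ), t ^ q * (f t - g t) = N q - L q := by
      intro q hq
      rw [hN, hL, ← integral_sub (fi q hq) (gi q hq)]
      refine integral_congr_ae (Filter.Eventually.of_forall fun t => ?_)
      simp only
      ring
    have hD : IntegrableOn (fun t => f t - g t) (Set.Ioi 0) := fI.sub gI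
    have hl1 := law_lin (fun t => f t - g t) (fun t => t ^ (1 : ℝ)) (fun t => t ^ (1 / 2 : ℝ))
      (fun t => t ^ (-(1 / 2) : ℝ)) (fun t => t ^ (1 : ℝ)) hD (hi 1 (by norm_num))
      (hi (1 / 2) (by norm_num)) (hi (-(1 / 2)) (by norm_num)) (hi 1 (by norm_num))
      1 (-(3 * c)) (-(c ^ 3)) 0 (3 * c ^ 2)
    have e1 : (fun t : ℝ => (1 * t ^ (1 : ℝ) + -(3 * c) * t ^ (1 / 2 : ℝ) + 3 * c ^ 2
        + -(c ^ 3) * t ^ (-(1 / 2) : ℝ) + 0 * t ^ (1 : ℝ)) * (f t - g t))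
        = fun t => K t * (f t - g t) := by
      funext t
      rw [hK]
      ring
    rw [e1, hv 1 (by norm_num), hv (1 / 2) (by norm_num), hv (-(1 / 2)) (by norm_num),
      integral_sub fI gI, hf0, g0] at hl1
    have hc1 := law_cross f g K fI gI hl1.1 (by rw [hf0, g0]) (by
      intro t u ht htu
      have hu : 0 < u := lt_of_lt_of_le ht htu
      have h1 : t ^ (1 / 2 : ℝ) ≤ u ^ (1 / 2 : ℝ) := Real.rpow_le_rpow ht.le htu (by norm_num)
      have h2 := law_ker hc (Real.rpow_pos_of_pos ht (1 / 2)) h1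
      have e2 : ∀ x : ℝ, 0 < x → K x = (x ^ (1 / 2 : ℝ)) ^ 2 - 3 * c * x ^ (1 / 2 : ℝ)
          + 3 * c ^ 2 - c ^ 3 / x ^ (1 / 2 : ℝ) := by
        intro x hx
        rw [hK, Real.rpow_neg hx.le, ← Real.rpow_natCast (x ^ (1 / 2 : ℝ)) 2,
          ← Real.rpow_mul hx.le]
        norm_num
        ring
      rw [e2 t ht, e2 u hu]
      exact h2) (by
      intro t u ht htu hgu
      have hu : 0 < u := lt_of_lt_of_le ht htu
      have h1 := hst t u ht htu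
      have h2 : Real.log (f 0 / f u) ≤ l * u ^ (3 / 2 : ℝ) := by
        rw [hg] at hgu
        have h3 : f 0 / f u ≤ Real.exp (l * u ^ (3 / 2 : ℝ)) := by
          rw [div_le_iff₀ (fp u hu)]
          have h4 : Real.exp (l * u ^ (3 / 2 : ℝ)) * (f 0 * Real.exp (-l * u ^ (3 / 2 : ℝ)))
              = f 0 := by
            rw [mul_comm, mul_assoc, ← Real.exp_add]
            rw [show -l * u ^ (3 / 2 : ℝ) + l * u ^ (3 / 2 : ℝ) = 0 by ring, Real.exp_zero,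
              mul_one]
          calc f 0 = Real.exp (l * u ^ (3 / 2 : ℝ))
                * (f 0 * Real.exp (-l * u ^ (3 / 2 : ℝ))) := h4.symm
            _ ≤ Real.exp (l * u ^ (3 / 2 : ℝ)) * f u :=
                mul_le_mul_of_nonneg_left hgu (Real.exp_pos _).le
        calc Real.log (f 0 / f u) ≤ Real.log (Real.exp (l * u ^ (3 / 2 : ℝ))) :=
              Real.log_le_log (div_pos f0 (fp u hu)) h3
          _ = _ := Real.log_exp _
      have hup : 0 < u ^ (3 / 2 : ℝ) := Real.rpow_pos_of_pos hu _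
      have htp : 0 < t ^ (3 / 2 : ℝ) := Real.rpow_pos_of_pos ht _
      have h3 : Real.log (f 0 / f t) ≤ l * t ^ (3 / 2 : ℝ) := by
        have h4 : Real.log (f 0 / f t) * u ^ (3 / 2 : ℝ)
            ≤ l * t ^ (3 / 2 : ℝ) * u ^ (3 / 2 : ℝ) := by
          refine h1.trans ?_
          calc Real.log (f 0 / f u) * t ^ (3 / 2 : ℝ)
              ≤ l * u ^ (3 / 2 : ℝ) * t ^ (3 / 2 : ℝ) :=
                mul_le_mul_of_nonneg_right h2 htp.le
            _ = _ := by ring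
        exact le_of_mul_le_mul_right h4 hup
      rw [hg]
      have h5 : f 0 / f t ≤ Real.exp (l * t ^ (3 / 2 : ℝ)) := by
        rw [← Real.log_le_iff_le_exp (div_pos f0 (fp t ht))]
        exact h3
      rw [div_le_iff₀ (fp t ht)] at h5
      calc f 0 * Real.exp (-l * t ^ (3 / 2 : ℝ))
          ≤ Real.exp (l * t ^ (3 / 2 : ℝ)) * f t * Real.exp (-l * t ^ (3 / 2 : ℝ)) :=
            mul_le_mul_of_nonneg_right h5 (Real.exp_pos _).le
        _ = f t * (Real.exp (l * t ^ (3 / 2 : ℝ)) * Real.exp (-l * t ^ (3 / 2 : ℝ))) := by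
            ring
        _ = f t := by
            rw [← Real.exp_add, show l * t ^ (3 / 2 : ℝ) + -l * t ^ (3 / 2 : ℝ) = 0 by ring,
              Real.exp_zero, mul_one])
    have h9 := hl1.2
    linarith
  -- the extremal law
  obtain ⟨w, hw⟩ : ∃ w : ℝ → ℝ, ∀ t, w t
      = 3 * l * f 0 * (t ^ (3 / 2 : ℝ) * Real.exp (-l * t ^ (3 / 2 : ℝ))) := ⟨_, fun t => rfl⟩
  have wq : ∀ q : ℝ, ∀ t ∈ Set.Ioi (0 : ℝ), 3 * l * f 0 * (t ^ (q + 3 / 2)
      * Real.exp (-l * t ^ (3 / 2 : ℝ))) = t ^ q * w t := by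
    intro q t ht
    rw [hw, Real.rpow_add ht]
    ring
  have wi : ∀ q : ℝ, -1 ≤ q → IntegrableOn (fun t => t ^ q * w t) (Set.Ioi 0) := by
    intro q hq
    have h1 := (law_ext hl0 (q := q + 3 / 2) (by linarith)).1.const_mul (3 * l * f 0)
    exact IntegrableOn.congr_fun h1 (fun t ht => wq q t ht) measurableSet_Ioi
  have wM : ∀ q : ℝ, -1 ≤ q → ∫ t in Set.Ioi (0 : ℝ), t ^ q * w t
      = 2 * f 0 * s ^ (-(q + 1)) * Real.Gamma (2 / 3 * (q + 1) + 1) := by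
    intro q hq
    rw [← setIntegral_congr_fun measurableSet_Ioi (wq q), integral_const_mul,
      (law_ext hl0 (q := q + 3 / 2) (by linarith)).2, hls,
      show 3 / 2 * (-(q + 3 / 2 + 1) / (3 / 2)) = -(q + 1) + -(3 / 2) by ring,
      show (q + 3 / 2 + 1) / (3 / 2) = 2 / 3 * (q + 1) + 1 by ring, hl, Real.rpow_add hs0,
      Real.rpow_neg hs0.le (3 / 2)]
    have : s ^ (3 / 2 : ℝ) ≠ 0 := (Real.rpow_pos_of_pos hs0 _).ne'
    field_simp
  have hp1 := law_pair p pp pI _ _ _ hker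
  have hp2 := law_pair w (by
    intro t ht
    rw [hw]
    positivity) wi _ _ _ hker
  -- values
  have vL : ∀ q : ℝ, -1 < q → 2 * (q + 1) * L q
      = 2 * f 0 * s ^ (-(q + 1)) * Real.Gamma (2 / 3 * (q + 1) + 1) := by
    intro q hq
    rw [hL, gN q hq, Real.Gamma_add_one (by linarith : 2 / 3 * (q + 1) ≠ 0)]
    ring
  have vM : ∀ q : ℝ, -1 < q → M q = 2 * (q + 1) * N q := by
    intro q hq
    rw [hM, hN, hm q hq]
  rw [← hM, ← hM, ← hM] at hp1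
  rw [wM (-1) le_rfl, wM (-(1 / 2)) (by norm_num), wM (1 / 2) (by norm_num)] at hp2
  have v1 := vL 1 (by norm_num)
  have v2 := vL (1 / 2) (by norm_num)
  have v3 := vL (-(1 / 2)) (by norm_num)
  have u1 := vM 1 (by norm_num)
  have u2 := vM (1 / 2) (by norm_num)
  have u3 := vM (-(1 / 2)) (by norm_num)
  have u4 : M (-1) = 2 * f 0 := by rw [hM, hm1]
  rw [show (2 / 3 * (1 + 1) + 1 : ℝ) = 7 / 3 by norm_num,
    show (-(1 + 1) : ℝ) = -2 by norm_num] at v1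
  rw [show (2 / 3 * (1 / 2 + 1) + 1 : ℝ) = 2 by norm_num,
    show (-(1 / 2 + 1) : ℝ) = -(3 / 2) by norm_num, Real.Gamma_two] at v2 hp2
  rw [show (2 / 3 * (-(1 / 2) + 1) + 1 : ℝ) = 4 / 3 by norm_num,
    show (-(-(1 / 2) + 1) : ℝ) = -(1 / 2) by norm_num] at v3 hp2
  rw [show (2 / 3 * (-1 + 1) + 1 : ℝ) = 1 by norm_num,
    show (-(-1 + 1) : ℝ) = 0 by norm_num, Real.rpow_zero, Real.Gamma_one] at hp2
  -- the final value
  have hA : s ^ (-2 : ℝ) * s ^ 2 = 1 := by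
    rw [← Real.rpow_natCast s 2, ← Real.rpow_add hs0]
    norm_num
  have hBC : s ^ (-(3 / 2) : ℝ) * s ^ (-(1 / 2) : ℝ) = s ^ (-2 : ℝ) := by
    rw [← Real.rpow_add hs0]
    norm_num
  have h73 : Real.Gamma (7 / 3) = 4 / 3 * Real.Gamma (4 / 3) := by
    rw [← Real.Gamma_add_one (by norm_num : (4 / 3 : ℝ) ≠ 0)]
    norm_num
  have hff : (2 * f 0) ^ 2 * s ^ (-2 : ℝ) = 1 / Real.Gamma (5 / 3) ^ 2 := by
    have h1 : 2 * f 0 = s / Real.Gamma (5 / 3) := by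
      rw [hs]
      field_simp
    rw [h1, div_pow, div_mul_eq_mul_div, mul_comm (s ^ 2), hA]
  have hfin : 2 * M 1 * M (-1) + 6 - 8 * M (1 / 2) * M (-(1 / 2))
      ≤ 6 - 16 / 3 * (Real.Gamma (4 / 3) / Real.Gamma (5 / 3) ^ 2) := by
    have g1 : (2 * (1 + 1) * L 1) * (2 * f 0)
        = 4 / 3 * (Real.Gamma (4 / 3) / Real.Gamma (5 / 3) ^ 2) := by
      rw [v1, h73]
      calc 2 * f 0 * s ^ (-2 : ℝ) * (4 / 3 * Real.Gamma (4 / 3)) * (2 * f 0)
          = ((2 * f 0) ^ 2 * s ^ (-2 : ℝ)) * (4 / 3 * Real.Gamma (4 / 3)) := by ring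
        _ = _ := by
          rw [hff]
          ring
    have g2 : (2 * (1 / 2 + 1) * L (1 / 2)) * (2 * (-(1 / 2) + 1) * L (-(1 / 2)))
        = Real.Gamma (4 / 3) / Real.Gamma (5 / 3) ^ 2 := by
      rw [v2, v3]
      calc 2 * f 0 * s ^ (-(3 / 2) : ℝ) * 1
            * (2 * f 0 * s ^ (-(1 / 2) : ℝ) * Real.Gamma (4 / 3))
          = ((2 * f 0) ^ 2 * (s ^ (-(3 / 2) : ℝ) * s ^ (-(1 / 2) : ℝ)))
            * Real.Gamma (4 / 3) := by ring
        _ = _ := by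
          rw [hBC, hff]
          ring
    rw [← v2, ← v3] at hp2
    rw [u4, u2, u3] at hp1
    rw [u1, u2, u3, u4]
    linarith [hp1, hp2, g1, g2]
  refine le_trans ?_ hfin
  -- comparison of the two kernels
  have hR0 : ∀ t, 0 < t → 0 < R t := fun t ht => lt_of_lt_of_le ha (hR t ht).1
  have hb0 : 0 < b := lt_of_lt_of_le (hR0 1 one_pos) (hR 1 one_pos).2
  have hbdd : ∀ (A : ℝ → ℝ) (c : ℝ), ContinuousOn A (Set.Ioi 0) →
      (∀ t, 0 < t → |A t| ≤ c) → IntegrableOn (fun t => A t * p t) (Set.Ioi 0) := by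
    intro A c hA1 hA2
    refine Integrable.mono' (pI0.const_mul c)
      ((hA1.mul pc).aestronglyMeasurable measurableSet_Ioi) ?_
    filter_upwards [ae_restrict_mem measurableSet_Ioi] with t ht
    have ht' : (0 : ℝ) < t := ht
    rw [norm_mul, Real.norm_eq_abs, Real.norm_eq_abs, abs_of_nonneg (pp t ht')]
    exact mul_le_mul_of_nonneg_right (hA2 t ht') (pp t ht')
  have Rinv : ContinuousOn (fun t => (R t)⁻¹) (Set.Ioi 0) :=
    Rc.inv₀ fun t ht => (hR0 t ht).ne'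
  have b1 : ∀ t, 0 < t → |R t| ≤ b := fun t ht => by
    rw [abs_of_pos (hR0 t ht)]
    exact (hR t ht).2
  have b2 : ∀ t, 0 < t → |(R t)⁻¹| ≤ a⁻¹ := fun t ht => by
    rw [abs_of_pos (inv_pos.2 (hR0 t ht))]
    exact inv_anti₀ ha (hR t ht).1
  have j1 : IntegrableOn (fun t => R t * p t) (Set.Ioi 0) := hbdd _ b Rc b1
  have j2 : IntegrableOn (fun t => (R t)⁻¹ * p t) (Set.Ioi 0) := hbdd _ (a⁻¹) Rinv b2
  have j3 : IntegrableOn (fun t => R t ^ 2 * p t) (Set.Ioi 0) :=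
    hbdd _ (b ^ 2) (Rc.pow 2) fun t ht => by
      rw [abs_pow]
      exact pow_le_pow_left₀ (abs_nonneg _) (b1 t ht) 2
  have j4 : IntegrableOn (fun t => ((R t)⁻¹) ^ 2 * p t) (Set.Ioi 0) :=
    hbdd _ ((a⁻¹) ^ 2) (Rinv.pow 2) fun t ht => by
      rw [abs_pow]
      exact pow_le_pow_left₀ (abs_nonneg _) (b2 t ht) 2
  -- pointwise
  have hpt : ∀ t u, 0 < t → 0 < u →
      ((R u)⁻¹) ^ 2 * R t ^ 2 + R u ^ 2 * ((R t)⁻¹) ^ 2 + 6 + -(4 * (R u)⁻¹) * R t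
        + -(4 * R u) * (R t)⁻¹
      ≤ u ^ (-1 : ℝ) * t ^ (1 : ℝ) + u ^ (1 : ℝ) * t ^ (-1 : ℝ) + 6
        + -(4 * u ^ (-(1 / 2) : ℝ)) * t ^ (1 / 2 : ℝ)
        + -(4 * u ^ (1 / 2 : ℝ)) * t ^ (-(1 / 2) : ℝ) := by
    -- the case u ≤ t
    have key : ∀ t u, 0 < u → u ≤ t →
        ((R u)⁻¹) ^ 2 * R t ^ 2 + R u ^ 2 * ((R t)⁻¹) ^ 2 + 6 + -(4 * (R u)⁻¹) * R t
          + -(4 * R u) * (R t)⁻¹
        ≤ u ^ (-1 : ℝ) * t ^ (1 : ℝ) + u ^ (1 : ℝ) * t ^ (-1 : ℝ) + 6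
          + -(4 * u ^ (-(1 / 2) : ℝ)) * t ^ (1 / 2 : ℝ)
          + -(4 * u ^ (1 / 2 : ℝ)) * t ^ (-(1 / 2) : ℝ) := by
      intro t u hu hut
      have ht : 0 < t := lt_of_lt_of_le hu hut
      have cu : 0 < u ^ (1 / 2 : ℝ) := Real.rpow_pos_of_pos hu _
      have ct : 0 < t ^ (1 / 2 : ℝ) := Real.rpow_pos_of_pos ht _
      have su : ∀ x : ℝ, 0 < x → x ^ (1 : ℝ) = (x ^ (1 / 2 : ℝ)) ^ 2 := by
        intro x hx
        rw [← Real.rpow_natCast, ← Real.rpow_mul hx.le]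
        norm_num
      have si : ∀ x : ℝ, 0 < x → x ^ (-1 : ℝ) = ((x ^ (1 / 2 : ℝ))⁻¹) ^ 2 := by
        intro x hx
        rw [← Real.rpow_neg hx.le, ← Real.rpow_natCast, ← Real.rpow_mul hx.le]
        norm_num
      have sh : ∀ x : ℝ, 0 < x → x ^ (-(1 / 2) : ℝ) = (x ^ (1 / 2 : ℝ))⁻¹ := by
        intro x hx
        exact Real.rpow_neg hx.le _
      rw [su u hu, su t ht, si u hu, si t ht, sh u hu, sh t ht]
      have ru := hR0 u hu
      have rt := hR0 t ht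
      have h1 : u ^ (1 / 2 : ℝ) / t ^ (1 / 2 : ℝ) ≤ R t / R u := by
        rw [div_le_div_iff₀ ct ru]
        have := hR2 u t hu hut
        linarith
      have h2 : R t / R u ≤ 1 := by
        rw [div_le_one ru]
        exact hR1 u t hu hut
      have h3 := law_phi (div_pos cu ct) h1 h2
      have e1 : (R t / R u) ^ 2 + ((R t / R u)⁻¹) ^ 2 + 6 - 4 * (R t / R u)
          - 4 * (R t / R u)⁻¹
          = ((R u)⁻¹) ^ 2 * R t ^ 2 + R u ^ 2 * ((R t)⁻¹) ^ 2 + 6 + -(4 * (R u)⁻¹) * R t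
            + -(4 * R u) * (R t)⁻¹ := by
        field_simp
        ring
      have e2 : (u ^ (1 / 2 : ℝ) / t ^ (1 / 2 : ℝ)) ^ 2
          + ((u ^ (1 / 2 : ℝ) / t ^ (1 / 2 : ℝ))⁻¹) ^ 2 + 6
          - 4 * (u ^ (1 / 2 : ℝ) / t ^ (1 / 2 : ℝ))
          - 4 * (u ^ (1 / 2 : ℝ) / t ^ (1 / 2 : ℝ))⁻¹
          = ((u ^ (1 / 2 : ℝ))⁻¹) ^ 2 * (t ^ (1 / 2 : ℝ)) ^ 2
            + (u ^ (1 / 2 : ℝ)) ^ 2 * ((t ^ (1 / 2 : ℝ))⁻¹) ^ 2 + 6
            + -(4 * (u ^ (1 / 2 : ℝ))⁻¹) * t ^ (1 / 2 : ℝ)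
            + -(4 * u ^ (1 / 2 : ℝ)) * (t ^ (1 / 2 : ℝ))⁻¹ := by
        field_simp
        ring
      rw [← e1, ← e2]
      exact h3
    intro t u ht hu
    rcases le_total u t with h | h
    · exact key t u hu h
    · have h1 := key u t ht h
      linarith
  -- the inner integral
  have hin : ∀ u, 0 < u →
      ((R u)⁻¹) ^ 2 * (∫ t in Set.Ioi (0 : ℝ), R t ^ 2 * p t)
        + R u ^ 2 * (∫ t in Set.Ioi (0 : ℝ), ((R t)⁻¹) ^ 2 * p t) + 6
        + -(4 * (R u)⁻¹) * (∫ t in Set.Ioi (0 : ℝ), R t * p t)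
        + -(4 * R u) * (∫ t in Set.Ioi (0 : ℝ), (R t)⁻¹ * p t)
      ≤ u ^ (-1 : ℝ) * M 1 + u ^ (1 : ℝ) * M (-1) + 6
        + -(4 * u ^ (-(1 / 2) : ℝ)) * M (1 / 2)
        + -(4 * u ^ (1 / 2 : ℝ)) * M (-(1 / 2)) := by
    intro u hu
    have l1 := law_lin p (fun t => R t ^ 2) (fun t => ((R t)⁻¹) ^ 2) R (fun t => (R t)⁻¹)
      pI0 j3 j4 j1 j2 (((R u)⁻¹) ^ 2) (R u ^ 2) (-(4 * (R u)⁻¹)) (-(4 * R u)) 6
    have l2 := law_lin p (fun t => t ^ (1 : ℝ)) (fun t => t ^ (-1 : ℝ))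
      (fun t => t ^ (1 / 2 : ℝ)) (fun t => t ^ (-(1 / 2) : ℝ))
      pI0 (pI 1 (by norm_num)) (pI (-1) le_rfl) (pI (1 / 2) (by norm_num))
      (pI (-(1 / 2)) (by norm_num)) (u ^ (-1 : ℝ)) (u ^ (1 : ℝ))
      (-(4 * u ^ (-(1 / 2) : ℝ))) (-(4 * u ^ (1 / 2 : ℝ))) 6
    have h1 := setIntegral_mono_on l1.1 l2.1 measurableSet_Ioi (fun t ht =>
      mul_le_mul_of_nonneg_right (hpt t u ht hu) (pp t ht))
    rw [l1.2, l2.2, h0] at h1
    rw [hM, hM, hM, hM]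
    linarith
  -- the outer integral
  obtain ⟨r2, hr2⟩ : ∃ x, x = ∫ t in Set.Ioi (0 : ℝ), R t ^ 2 * p t := ⟨_, rfl⟩
  obtain ⟨r3, hr3⟩ : ∃ x, x = ∫ t in Set.Ioi (0 : ℝ), ((R t)⁻¹) ^ 2 * p t := ⟨_, rfl⟩
  obtain ⟨r1, hr1⟩ : ∃ x, x = ∫ t in Set.Ioi (0 : ℝ), R t * p t := ⟨_, rfl⟩
  obtain ⟨r4, hr4⟩ : ∃ x, x = ∫ t in Set.Ioi (0 : ℝ), (R t)⁻¹ * p t := ⟨_, rfl⟩
  rw [← hr1, ← hr2, ← hr3, ← hr4] at hin
  have l1 := law_lin p (fun t => R t ^ 2) (fun t => ((R t)⁻¹) ^ 2) R (fun t => (R t)⁻¹)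
    pI0 j3 j4 j1 j2 r3 r2 (-(4 * r4)) (-(4 * r1)) 6
  have l2 := law_lin p (fun t => t ^ (1 : ℝ)) (fun t => t ^ (-1 : ℝ))
    (fun t => t ^ (1 / 2 : ℝ)) (fun t => t ^ (-(1 / 2) : ℝ))
    pI0 (pI 1 (by norm_num)) (pI (-1) le_rfl) (pI (1 / 2) (by norm_num))
    (pI (-(1 / 2)) (by norm_num)) (M (-1)) (M 1)
    (-(4 * M (-(1 / 2)))) (-(4 * M (1 / 2))) 6
  have h1 := setIntegral_mono_on l1.1 l2.1 measurableSet_Ioi (fun t ht => by
    have h2 := hin t ht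
    refine mul_le_mul_of_nonneg_right ?_ (pp t ht)
    linarith)
  rw [l1.2, l2.2, h0, ← hr1, ← hr2, ← hr3, ← hr4, ← hM, ← hM, ← hM, ← hM] at h1
  rw [← hr1, ← hr2, ← hr3, ← hr4]
  linarith

/-! ## The moments -/

theorem law_mom (f p : ℝ → ℝ) (fc : ContinuousOn f (Set.Ici 0))
    (hd : ∀ t, 0 < t → HasDerivAt f (-(p t / (2 * t))) t)
    (pI : ∀ q : ℝ, -1 ≤ q → IntegrableOn (fun t => t ^ q * p t) (Set.Ioi 0))
    (fi : ∀ q : ℝ, -1 < q → IntegrableOn (fun t => t ^ q * f t) (Set.Ioi 0)) :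
    (∫ t in Set.Ioi (0 : ℝ), t ^ (-1 : ℝ) * p t = 2 * f 0) ∧
    ∀ q : ℝ, -1 < q → ∫ t in Set.Ioi (0 : ℝ), t ^ q * p t
      = 2 * (q + 1) * ∫ t in Set.Ioi (0 : ℝ), t ^ q * f t := by
  constructor
  · have fI : IntegrableOn f (Set.Ioi 0) := by
      have := fi 0 (by norm_num)
      simpa using this
    have h1 : IntegrableOn (fun t => -(1 / 2) * (t ^ (-1 : ℝ) * p t)) (Set.Ioi 0) :=
      (pI (-1) le_rfl).const_mul _
    have h2 : ∀ t ∈ Set.Ioi (0 : ℝ), HasDerivAt f (-(1 / 2) * (t ^ (-1 : ℝ) * p t)) t := by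
      intro t ht
      have ht' : (0 : ℝ) < t := ht
      have e1 : -(1 / 2) * (t ^ (-1 : ℝ) * p t) = -(p t / (2 * t)) := by
        rw [Real.rpow_neg_one]
        field_simp
      rw [e1]
      exact hd t ht'
    have h3 := tendsto_zero_of_hasDerivAt_of_integrableOn_Ioi h2 h1 fI
    have h4 := integral_Ioi_of_hasDerivAt_of_tendsto (fc 0 Set.self_mem_Ici) h2 h1 h3
    rw [integral_const_mul] at h4
    linarith
  · intro q hq
    have i1 := (fi q hq).const_mul (q + 1)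
    have i2 := (pI q hq.le).const_mul (-(1 / 2))
    have h1 : IntegrableOn (fun t => (q + 1) * (t ^ q * f t) + -(1 / 2) * (t ^ q * p t))
        (Set.Ioi 0) := i1.add i2
    have h2 : ∀ t ∈ Set.Ioi (0 : ℝ), HasDerivAt (fun t : ℝ => t ^ (q + 1) * f t)
        ((q + 1) * (t ^ q * f t) + -(1 / 2) * (t ^ q * p t)) t := by
      intro t ht
      have ht' : (0 : ℝ) < t := ht
      have d1 := (Real.hasDerivAt_rpow_const (x := t) (p := q + 1) (Or.inl ht'.ne')).mul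
        (hd t ht')
      have e1 : (q + 1) * t ^ (q + 1 - 1) * f t + t ^ (q + 1) * -(p t / (2 * t))
          = (q + 1) * (t ^ q * f t) + -(1 / 2) * (t ^ q * p t) := by
        rw [show q + 1 - 1 = q by ring, Real.rpow_add ht', Real.rpow_one]
        field_simp
      rw [← e1]
      exact d1
    have h3 := tendsto_zero_of_hasDerivAt_of_integrableOn_Ioi h2 h1 (fi (q + 1) (by linarith))
    have hc : ContinuousWithinAt (fun t : ℝ => t ^ (q + 1) * f t) (Set.Ici 0) 0 := by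
      refine ContinuousWithinAt.mul ?_ (fc 0 Set.self_mem_Ici)
      exact (Real.continuousAt_rpow_const 0 (q + 1) (Or.inr (by linarith))).continuousWithinAt
    have h4 := integral_Ioi_of_hasDerivAt_of_tendsto hc h2 h1 h3
    rw [integral_add i1 i2, integral_const_mul, integral_const_mul,
      Real.zero_rpow (by linarith : q + 1 ≠ 0)] at h4
    linarith

theorem st_LAW0 : Pool.Agent.Helper75.GR.ST_LAW0 := by
  intro f p R a b f0 fc hd pp pc fI hf0 pI fi hst Rc ha hR hR1 hR2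
  obtain ⟨h1, h2⟩ := law_mom f p fc hd pI fi
  have h3 : ∫ t in Set.Ioi (0 : ℝ), p t = 1 := by
    have h4 := h2 0 (by norm_num)
    simp only [Real.rpow_zero, one_mul] at h4
    rw [h4, hf0]
    norm_num
  exact law_main f p R a b (f0 0 le_rfl) (fun t ht => f0 t ht.le) fi pp pc pI h2 h1 h3 hst Rc
    ha hR hR1 hR2

end Pool.Agent.Helper70.GR
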