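import Pool.Agent.Helper75.GR.Stmts

/-! Module TWO (helper70): the two point bound for `E tr B²`. -/

open Finset MeasureTheory Filter Topology Matrix
open scoped ENNReal ContDiff

namespace Pool.Agent.Helper70.GR

open Pool.Agent.Helper44.GF Pool.Agent.Helper44.GN Pool.Agent.Helper44.GH

theorem two_int {n : ℕ} {P : Measure (Fin n → ℝ)} [IsProbabilityMeasure P] {a b : ℝ}
    (ha : 0 < a) (hb : ∀ᵐ y ∂P, ∀ i, a ≤ y i ∧ y i ≤ b)
    {F : (Fin n → ℝ) × (Fin n → ℝ) → ℝ} (hF : ContinuousOn F (Og n ×ˢ Og n)) :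
    Integrable F (P.prod P) := by
  obtain ⟨K, hKd⟩ : ∃ K : Set (Fin n → ℝ), K = Set.pi Set.univ fun _ : Fin n => Set.Icc a b :=
    ⟨_, rfl⟩
  have hK1 : IsCompact K := by
    rw [hKd]
    exact isCompact_univ_pi fun _ => isCompact_Icc
  have hK : IsCompact (K ×ˢ K) := hK1.prod hK1
  have hsub1 : K ⊆ Og n := by
    intro y hy i
    rw [hKd] at hy
    exact lt_of_lt_of_le ha (hy i (Set.mem_univ _)).1
  have hsub : K ×ˢ K ⊆ Og n ×ˢ Og n := Set.prod_mono hsub1 hsub1
  have h1 : IntegrableOn F (K ×ˢ K) (P.prod P) := (hF.mono hsub).integrableOn_compact hK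
  have h0 : ∀ᵐ y ∂P, y ∈ K := by
    filter_upwards [hb] with y hy
    rw [hKd]
    intro i _
    exact hy i
  have h2 : (P.prod P).restrict (K ×ˢ K) = P.prod P := by
    apply Measure.restrict_eq_self_of_ae_mem
    have h3 : ∀ᵐ p ∂(P.prod P), p.1 ∈ K := Measure.quasiMeasurePreserving_fst.ae h0
    have h4 : ∀ᵐ p ∂(P.prod P), p.2 ∈ K := Measure.quasiMeasurePreserving_snd.ae h0
    filter_upwards [h3, h4] with p hp hq
    exact ⟨hp, hq⟩
  unfold IntegrableOn at h1
  rwa [h2] at h1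

theorem two_cs {α : Type} [MeasurableSpace α] (μ : Measure α) (D A w : α → ℝ)
    (hw : ∀ᵐ a ∂μ, 0 < w a) (h1 : Integrable (fun a => w a * D a ^ 2) μ)
    (h2 : Integrable (fun a => D a * A a) μ) (h3 : Integrable (fun a => (w a)⁻¹ * A a ^ 2) μ) :
    (∫ a, D a * A a ∂μ) ^ 2 ≤ (∫ a, w a * D a ^ 2 ∂μ) * ∫ a, (w a)⁻¹ * A a ^ 2 ∂μ := by
  have h : ∀ s : ℝ, 0 ≤ (∫ a, (w a)⁻¹ * A a ^ 2 ∂μ) * (s * s)
      + (-2 * ∫ a, D a * A a ∂μ) * s + ∫ a, w a * D a ^ 2 ∂μ := by
    intro s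
    have e1 : ∫ a, ((s * s) * ((w a)⁻¹ * A a ^ 2) + ((-2 * s) * (D a * A a)
        + w a * D a ^ 2)) ∂μ
        = (s * s) * (∫ a, (w a)⁻¹ * A a ^ 2 ∂μ) + ((-2 * s) * (∫ a, D a * A a ∂μ)
        + ∫ a, w a * D a ^ 2 ∂μ) := by
      have h4 : Integrable (fun a => (-2 * s) * (D a * A a) + w a * D a ^ 2) μ :=
        (h2.const_mul _).add h1
      rw [integral_add (h3.const_mul _) h4,
        integral_add (h2.const_mul _) h1, integral_const_mul, integral_const_mul]
    have e2 : 0 ≤ ∫ a, ((s * s) * ((w a)⁻¹ * A a ^ 2) + ((-2 * s) * (D a * A a)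
        + w a * D a ^ 2)) ∂μ := by
      refine integral_nonneg_of_ae ?_
      filter_upwards [hw] with a ha
      have e3 : (s * s) * ((w a)⁻¹ * A a ^ 2) + ((-2 * s) * (D a * A a) + w a * D a ^ 2)
          = w a * (D a - s * (w a)⁻¹ * A a) ^ 2 := by
        field_simp
        ring
      rw [e3]
      exact mul_nonneg ha.le (sq_nonneg _)
    rw [e1] at e2
    linarith
  have hd := discrim_le_zero h
  unfold discrim at hd
  nlinarith

/-- The difference of two values of `BB`. -/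
theorem two_sub {n m : ℕ} (V Z : Matrix (Fin n) (Fin m) ℝ) (y t : Fin n → ℝ)
    (hy : (TT V V y).det ≠ 0) (ht : (TT V V t).det ≠ 0) (a b : Fin m) :
    BB V Z y a b - BB V Z t a b = ∑ k, (y k - t k) * uu V y k a * rr V Z t k b := by
  have hU : IsUnit (TT V V y).det := isUnit_iff_ne_zero.2 hy
  have hU' : IsUnit (TT V V t).det := isUnit_iff_ne_zero.2 ht
  obtain ⟨R, hR⟩ : ∃ R : Matrix (Fin n) (Fin m) ℝ, R = Z - V * BB V Z t := ⟨_, rfl⟩
  have e0 : TT V R t = 0 := by
    have : TT V R t = TT V Z t - TT V V t * BB V Z t := by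
      rw [hR]
      unfold TT
      rw [Matrix.mul_sub, Matrix.mul_assoc (Vᵀ * Matrix.diagonal t) V]
    rw [this]
    unfold BB
    rw [← Matrix.mul_assoc, Matrix.mul_nonsing_inv _ hU', Matrix.one_mul, sub_self]
  have e1 : BB V Z y - BB V Z t = (TT V V y)⁻¹ * TT V R y := by
    have e2 : TT V R y = TT V Z y - TT V V y * BB V Z t := by
      rw [hR]
      unfold TT
      rw [Matrix.mul_sub, Matrix.mul_assoc (Vᵀ * Matrix.diagonal y) V]
    rw [e2, Matrix.mul_sub, ← Matrix.mul_assoc, Matrix.nonsing_inv_mul _ hU, Matrix.one_mul]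
    rfl
  have e3 : TT V R y = Vᵀ * (Matrix.diagonal (fun k => y k - t k) * R) := by
    have e4 : Matrix.diagonal (fun k => y k - t k)
        = Matrix.diagonal y - Matrix.diagonal t := by
      rw [Matrix.diagonal_sub]
    have e5 : TT V R y = TT V R y - TT V R t := by rw [e0, sub_zero]
    rw [e5, e4]
    unfold TT
    rw [Matrix.sub_mul, Matrix.mul_sub, Matrix.mul_assoc, Matrix.mul_assoc]
  have e6 : BB V Z y a b - BB V Z t a b
      = ((TT V V y)⁻¹ * Vᵀ * (Matrix.diagonal (fun k => y k - t k) * R)) a b := by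
    rw [← Matrix.sub_apply, e1, e3, Matrix.mul_assoc]
  rw [e6, Matrix.mul_apply]
  refine Finset.sum_congr rfl fun k _ => ?_
  have e7 : ((TT V V y)⁻¹ * Vᵀ) a k = uu V y k a := by
    unfold uu
    simp only [Matrix.mul_apply, Matrix.transpose_apply, Matrix.mulVec, dotProduct]
  have e8 : R k b = rr V Z t k b := by
    rw [hR]
    unfold rr
    simp only [Matrix.sub_apply, Matrix.mul_apply, Pi.sub_apply, Matrix.mulVec, dotProduct,
      Matrix.transpose_apply]
    congr 1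
    exact Finset.sum_congr rfl fun c _ => mul_comm _ _
  rw [e7, Matrix.diagonal_mul, e8]
  ring

theorem two_tr {n m : ℕ} (V Z : Matrix (Fin n) (Fin m) ℝ) (y t : Fin n → ℝ)
    (hy : (TT V V y).det ≠ 0) (ht : (TT V V t).det ≠ 0) :
    ∑ a, ∑ b, (BB V Z y a b - BB V Z t a b) * (BB V Z y b a - BB V Z t b a)
      = ∑ k, ∑ l, (y k - t k) * (y l - t l) * ((uu V y k ⬝ᵥ rr V Z y l)
        * (uu V t l ⬝ᵥ rr V Z t k)) := by
  have e1 : ∀ a b, (BB V Z y a b - BB V Z t a b) * (BB V Z y b a - BB V Z t b a)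
      = ∑ k, ∑ l, (y k - t k) * (y l - t l) * ((uu V y k a * rr V Z y l a)
        * (uu V t l b * rr V Z t k b)) := by
    intro a b
    have h1 := two_sub V Z y t hy ht a b
    have h2 := two_sub V Z t y ht hy b a
    have h3 : BB V Z y b a - BB V Z t b a
        = ∑ k, (y k - t k) * uu V t k b * rr V Z y k a := by
      have h4 : BB V Z y b a - BB V Z t b a = -(BB V Z t b a - BB V Z y b a) := by ring
      rw [h4, h2, ← Finset.sum_neg_distrib]
      exact Finset.sum_congr rfl fun k _ => by ring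
    rw [h1, h3, Finset.sum_mul_sum]
    exact Finset.sum_congr rfl fun k _ => Finset.sum_congr rfl fun l _ => by ring
  have e2 : ∑ a, ∑ b, (BB V Z y a b - BB V Z t a b) * (BB V Z y b a - BB V Z t b a)
      = ∑ a, ∑ b, ∑ k, ∑ l, (y k - t k) * (y l - t l) * ((uu V y k a * rr V Z y l a)
        * (uu V t l b * rr V Z t k b)) :=
    Finset.sum_congr rfl fun a _ => Finset.sum_congr rfl fun b _ => e1 a b
  rw [e2]
  have e3 : ∀ a : Fin m, ∑ b, ∑ k, ∑ l, (y k - t k) * (y l - t l)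
        * ((uu V y k a * rr V Z y l a) * (uu V t l b * rr V Z t k b))
      = ∑ k, ∑ l, ∑ b, (y k - t k) * (y l - t l)
        * ((uu V y k a * rr V Z y l a) * (uu V t l b * rr V Z t k b)) := by
    intro a
    rw [Finset.sum_comm]
    exact Finset.sum_congr rfl fun k _ => Finset.sum_comm
  rw [Finset.sum_congr rfl fun a _ => e3 a, Finset.sum_comm]
  refine Finset.sum_congr rfl fun k _ => ?_
  rw [Finset.sum_comm]
  refine Finset.sum_congr rfl fun l _ => ?_
  simp only [dotProduct]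
  rw [Finset.sum_mul_sum, Finset.mul_sum]
  refine Finset.sum_congr rfl fun a _ => ?_
  rw [Finset.mul_sum]

theorem two_symm {n m : ℕ} (V : Matrix (Fin n) (Fin m) ℝ) (y : Fin n → ℝ) :
    ((TT V V y)⁻¹)ᵀ = (TT V V y)⁻¹ := by
  rw [Matrix.transpose_nonsing_inv]
  congr 1
  unfold TT
  rw [Matrix.transpose_mul, Matrix.transpose_mul, Matrix.transpose_transpose,
    Matrix.diagonal_transpose, Matrix.mul_assoc]

theorem two_par {n m : ℕ} (V : Matrix (Fin n) (Fin m) ℝ) (y : Fin n → ℝ)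
    (hy : (TT V V y).det ≠ 0) (w : Fin m → ℝ) :
    ∑ k, y k * (uu V y k ⬝ᵥ w) ^ 2 = w ⬝ᵥ (TT V V y)⁻¹ *ᵥ w := by
  have hU : IsUnit (TT V V y).det := isUnit_iff_ne_zero.2 hy
  obtain ⟨x, hx⟩ : ∃ x : Fin m → ℝ, x = (TT V V y)⁻¹ *ᵥ w := ⟨_, rfl⟩
  have e1 : ∀ k, uu V y k ⬝ᵥ w = V k ⬝ᵥ x := by
    intro k
    unfold uu
    rw [hx, dotProduct_comm, Matrix.dotProduct_mulVec, ← Matrix.mulVec_transpose, two_symm,
      dotProduct_comm]
  have e2 : ∑ k, y k * (V k ⬝ᵥ x) ^ 2 = x ⬝ᵥ TT V V y *ᵥ x := by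
    have e3 : TT V V y *ᵥ x = Vᵀ *ᵥ (Matrix.diagonal y *ᵥ (V *ᵥ x)) := by
      unfold TT
      rw [Matrix.mulVec_mulVec, Matrix.mulVec_mulVec]
    rw [e3, Matrix.dotProduct_mulVec, ← Matrix.mulVec_transpose, Matrix.transpose_transpose]
    simp only [dotProduct, Matrix.mulVec_diagonal]
    refine Finset.sum_congr rfl fun k _ => ?_
    simp only [Matrix.mulVec, dotProduct]
    ring
  rw [Finset.sum_congr rfl fun k _ => by rw [e1 k], e2, hx, Matrix.mulVec_mulVec,
    Matrix.mul_nonsing_inv _ hU, Matrix.one_mulVec, dotProduct_comm]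

/-- The normalised square of the difference of two coordinates. -/
noncomputable def ph {n : ℕ} (k : Fin n) (p : (Fin n → ℝ) × (Fin n → ℝ)) : ℝ :=
  p.1 k / p.2 k + p.2 k / p.1 k - 2

theorem st_TWO (hS : ST_SGF) (hC : ST_CNT) : Pool.Agent.Helper75.GR.ST_TWO := by
  intro n m P hP a b J V Z ha hJ hb hV hM hB
  have hae : ∀ᵐ y ∂P, y ∈ Og n := by
    filter_upwards [hb] with y hy
    intro i
    exact lt_of_lt_of_le ha (hy i).1
  have hae1 : ∀ᵐ p ∂(P.prod P), p.1 ∈ Og n := Measure.quasiMeasurePreserving_fst.ae hae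
  have hae2 : ∀ᵐ p ∂(P.prod P), p.2 ∈ Og n := Measure.quasiMeasurePreserving_snd.ae hae
  have cK := (hC n m V Z hV).2.2.1
  have cB := (hC n m V Z hV).2.2.2.1
  have cS := (hC n m V Z hV).2.2.2.2
  have hq : ∀ y ∈ Og n, (TT V V y).det ≠ 0 := fun y hy => ((hC n m V Z hV).1 y hy).ne'
  -- integrability of continuous functions of one point
  have hint : ∀ F : (Fin n → ℝ) → ℝ, ContinuousOn F (Og n) → Integrable F P := by
    intro F hF
    have hK : IsCompact (Set.pi Set.univ fun _ : Fin n => Set.Icc a b) :=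
      isCompact_univ_pi fun _ => isCompact_Icc
    have hsub : (Set.pi Set.univ fun _ : Fin n => Set.Icc a b) ⊆ Og n := by
      intro y hy i
      exact lt_of_lt_of_le ha (hy i (Set.mem_univ _)).1
    have h1 : IntegrableOn F (Set.pi Set.univ fun _ : Fin n => Set.Icc a b) P :=
      (hF.mono hsub).integrableOn_compact hK
    have h2 : P.restrict (Set.pi Set.univ fun _ : Fin n => Set.Icc a b) = P := by
      apply Measure.restrict_eq_self_of_ae_mem
      filter_upwards [hb] with y hy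
      intro i _
      exact hy i
    unfold IntegrableOn at h1
    rwa [h2] at h1
  obtain ⟨al, hal⟩ : ∃ al : Fin n → Fin n → (Fin n → ℝ) → ℝ,
      al = fun k l y => uu V y k ⬝ᵥ rr V Z y l := ⟨_, rfl⟩
  have cal : ∀ k l, ContinuousOn (al k l) (Og n) := by
    intro k l
    rw [hal]
    unfold uu rr
    simp only [dotProduct, Matrix.mulVec, Pi.sub_apply, Matrix.transpose_apply]
    refine continuousOn_finsetSum _ fun i _ => ContinuousOn.mul ?_ ?_
    · exact continuousOn_finsetSum _ fun j _ => (cK i j).mul continuousOn_const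
    · refine continuousOn_const.sub ?_
      exact continuousOn_finsetSum _ fun j _ => (cB j i).mul continuousOn_const
  have cy : ∀ k : Fin n, ContinuousOn (fun y : Fin n → ℝ => y k) (Og n) :=
    fun k => (continuous_apply k).continuousOn
  have c1 : ∀ F : (Fin n → ℝ) → ℝ, ContinuousOn F (Og n) →
      ContinuousOn (fun p : (Fin n → ℝ) × (Fin n → ℝ) => F p.1) (Og n ×ˢ Og n) := by
    intro F hF
    exact hF.comp continuous_fst.continuousOn fun p hp => hp.1
  have c2 : ∀ F : (Fin n → ℝ) → ℝ, ContinuousOn F (Og n) →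
      ContinuousOn (fun p : (Fin n → ℝ) × (Fin n → ℝ) => F p.2) (Og n ×ˢ Og n) := by
    intro F hF
    exact hF.comp continuous_snd.continuousOn fun p hp => hp.2
  have cph : ∀ k : Fin n, ContinuousOn (ph k) (Og n ×ˢ Og n) := by
    intro k
    unfold ph
    refine ContinuousOn.sub (ContinuousOn.add ?_ ?_) continuousOn_const
    · exact (c1 _ (cy k)).div (c2 _ (cy k)) fun p hp => (hp.2 k).ne'
    · exact (c2 _ (cy k)).div (c1 _ (cy k)) fun p hp => (hp.1 k).ne'
  -- the squares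
  have hph : ∀ k, ∫ p, ph k p * ph k p ∂(P.prod P) ≤ J ^ 2 := by
    intro k
    refine le_trans (le_of_eq ?_) (hM k)
    have g1 : Integrable (fun y : Fin n → ℝ => y k) P := hint _ (cy k)
    have g2 : Integrable (fun y : Fin n → ℝ => (y k)⁻¹) P :=
      hint _ ((cy k).inv₀ fun y hy => (hy k).ne')
    have g3 : Integrable (fun y : Fin n → ℝ => y k ^ 2) P := hint _ ((cy k).pow 2)
    have g4 : Integrable (fun y : Fin n → ℝ => ((y k)⁻¹) ^ 2) P :=
      hint _ (((cy k).inv₀ fun y hy => (hy k).ne').pow 2)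
    have e1 : ∫ p, ph k p * ph k p ∂(P.prod P)
        = ∫ p, ((p.1 k ^ 2 * ((p.2 k)⁻¹) ^ 2 + ((p.1 k)⁻¹) ^ 2 * p.2 k ^ 2)
          + (6 - 4 * (p.1 k * (p.2 k)⁻¹) - 4 * ((p.1 k)⁻¹ * p.2 k))) ∂(P.prod P) := by
      refine integral_congr_ae ?_
      filter_upwards [hae1, hae2] with p hp1 hp2
      have h1 := (hp1 k).ne'
      have h2 := (hp2 k).ne'
      unfold ph
      field_simp
      ring
    have i1 : Integrable (fun p : (Fin n → ℝ) × (Fin n → ℝ) => p.1 k ^ 2 * ((p.2 k)⁻¹) ^ 2)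
        (P.prod P) := g3.mul_prod g4
    have i2 : Integrable (fun p : (Fin n → ℝ) × (Fin n → ℝ) => ((p.1 k)⁻¹) ^ 2 * p.2 k ^ 2)
        (P.prod P) := g4.mul_prod g3
    have i3 : Integrable (fun p : (Fin n → ℝ) × (Fin n → ℝ) => p.1 k * (p.2 k)⁻¹)
        (P.prod P) := g1.mul_prod g2
    have i4 : Integrable (fun p : (Fin n → ℝ) × (Fin n → ℝ) => (p.1 k)⁻¹ * p.2 k)
        (P.prod P) := g2.mul_prod g1
    have i5 : Integrable (fun p : (Fin n → ℝ) × (Fin n → ℝ) =>
        6 - 4 * (p.1 k * (p.2 k)⁻¹)) (P.prod P) := (integrable_const _).sub (i3.const_mul _)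
    have i6 : Integrable (fun p : (Fin n → ℝ) × (Fin n → ℝ) =>
        6 - 4 * (p.1 k * (p.2 k)⁻¹) - 4 * ((p.1 k)⁻¹ * p.2 k)) (P.prod P) :=
      i5.sub (i4.const_mul _)
    have i7 : Integrable (fun p : (Fin n → ℝ) × (Fin n → ℝ) =>
        p.1 k ^ 2 * ((p.2 k)⁻¹) ^ 2 + ((p.1 k)⁻¹) ^ 2 * p.2 k ^ 2) (P.prod P) := i1.add i2
    rw [e1, integral_add i7 i6, integral_add i1 i2, integral_sub i5 (i4.const_mul _),
      integral_sub (integrable_const _) (i3.const_mul _), integral_const_mul,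
      integral_const_mul, integral_const, probReal_univ, one_smul,
      integral_prod_mul (fun y : Fin n → ℝ => y k ^ 2) (fun y : Fin n → ℝ => ((y k)⁻¹) ^ 2),
      integral_prod_mul (fun y : Fin n → ℝ => ((y k)⁻¹) ^ 2) (fun y : Fin n → ℝ => y k ^ 2),
      integral_prod_mul (fun y : Fin n → ℝ => y k) (fun y : Fin n → ℝ => (y k)⁻¹),
      integral_prod_mul (fun y : Fin n → ℝ => (y k)⁻¹) (fun y : Fin n → ℝ => y k)]
    ring
  have hpp : ∀ k l, ∫ p, ph k p * ph l p ∂(P.prod P) ≤ J ^ 2 := by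
    intro k l
    have hc := two_cs (P.prod P) (ph k) (ph l) (fun _ => 1)
      (Filter.Eventually.of_forall fun _ => one_pos)
      (two_int ha hb (continuousOn_const.mul ((cph k).pow 2)))
      (two_int ha hb ((cph k).mul (cph l)))
      (two_int ha hb (continuousOn_const.mul ((cph l).pow 2)))
    simp only [inv_one, one_mul, sq] at hc
    have h1 := hph k
    have h2 := hph l
    have h3 : 0 ≤ ∫ p, ph k p * ph k p ∂(P.prod P) :=
      integral_nonneg fun p => mul_self_nonneg _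
    have h4 : 0 ≤ ∫ p, ph l p * ph l p ∂(P.prod P) :=
      integral_nonneg fun p => mul_self_nonneg _
    have h5 : (∫ p, ph k p * ph k p ∂(P.prod P)) * (∫ p, ph l p * ph l p ∂(P.prod P))
        ≤ J ^ 2 * J ^ 2 := mul_le_mul h1 h2 h4 (sq_nonneg _)
    have h6 : (∫ p, ph k p * ph l p ∂(P.prod P)) ^ 2 ≤ (J ^ 2) ^ 2 := by
      rw [sq, sq (J ^ 2)]
      linarith
    exact le_of_sq_le_sq h6 (sq_nonneg _)
  -- the numbers `E y_k y_l α_kl²`
  obtain ⟨A, hA⟩ : ∃ A : Fin n → Fin n → ℝ,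
      A = fun k l => ∫ y, y k * y l * al k l y ^ 2 ∂P := ⟨_, rfl⟩
  have iA : ∀ k l, Integrable (fun y => y k * y l * al k l y ^ 2) P := fun k l =>
    hint _ (((cy k).mul (cy l)).mul ((cal k l).pow 2))
  have hA0 : ∀ k l, 0 ≤ A k l := by
    intro k l
    rw [hA]
    refine integral_nonneg_of_ae ?_
    filter_upwards [hae] with y hy
    exact mul_nonneg (mul_nonneg (hy k).le (hy l).le) (sq_nonneg _)
  have hterm : ∀ k l, ∫ p, (p.1 k - p.2 k) * (p.1 l - p.2 l) * (al k l p.1 * al l k p.2)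
      ∂(P.prod P) ≤ J * ((A k l + A l k) / 2) := by
    intro k l
    have cw : ContinuousOn (fun p : (Fin n → ℝ) × (Fin n → ℝ) =>
        p.1 k * p.1 l * (p.2 k * p.2 l)) (Og n ×ˢ Og n) :=
      ((c1 _ (cy k)).mul (c1 _ (cy l))).mul ((c2 _ (cy k)).mul (c2 _ (cy l)))
    have cwi : ContinuousOn (fun p : (Fin n → ℝ) × (Fin n → ℝ) =>
        (p.1 k * p.1 l * (p.2 k * p.2 l))⁻¹) (Og n ×ˢ Og n) :=
      cw.inv₀ fun p hp => (mul_pos (mul_pos (hp.1 k) (hp.1 l)) (mul_pos (hp.2 k) (hp.2 l))).ne'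
    have cD : ContinuousOn (fun p : (Fin n → ℝ) × (Fin n → ℝ) =>
        (p.1 k - p.2 k) * (p.1 l - p.2 l)) (Og n ×ˢ Og n) :=
      ((c1 _ (cy k)).sub (c2 _ (cy k))).mul ((c1 _ (cy l)).sub (c2 _ (cy l)))
    have cA : ContinuousOn (fun p : (Fin n → ℝ) × (Fin n → ℝ) =>
        al k l p.1 * al l k p.2) (Og n ×ˢ Og n) := (c1 _ (cal k l)).mul (c2 _ (cal l k))
    have hc := two_cs (P.prod P)
      (fun p : (Fin n → ℝ) × (Fin n → ℝ) => (p.1 k - p.2 k) * (p.1 l - p.2 l))
      (fun p : (Fin n → ℝ) × (Fin n → ℝ) => al k l p.1 * al l k p.2)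
      (fun p : (Fin n → ℝ) × (Fin n → ℝ) => (p.1 k * p.1 l * (p.2 k * p.2 l))⁻¹)
      (by
        filter_upwards [hae1, hae2] with p h1 h2
        exact inv_pos.2 (mul_pos (mul_pos (h1 k) (h1 l)) (mul_pos (h2 k) (h2 l))))
      (two_int ha hb (cwi.mul (cD.pow 2))) (two_int ha hb (cD.mul cA))
      (two_int ha hb ((cwi.inv₀ fun p hp => inv_ne_zero (mul_pos (mul_pos (hp.1 k) (hp.1 l))
        (mul_pos (hp.2 k) (hp.2 l))).ne').mul (cA.pow 2)))
    have e1 : ∫ p, (p.1 k * p.1 l * (p.2 k * p.2 l))⁻¹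
        * ((p.1 k - p.2 k) * (p.1 l - p.2 l)) ^ 2 ∂(P.prod P)
        = ∫ p, ph k p * ph l p ∂(P.prod P) := by
      refine integral_congr_ae ?_
      filter_upwards [hae1, hae2] with p hp1 hp2
      have h1 := (hp1 k).ne'
      have h2 := (hp2 k).ne'
      have h3 := (hp1 l).ne'
      have h4 := (hp2 l).ne'
      unfold ph
      field_simp
      ring
    have e2 : ∫ p, ((p.1 k * p.1 l * (p.2 k * p.2 l))⁻¹)⁻¹
        * (al k l p.1 * al l k p.2) ^ 2 ∂(P.prod P) = A k l * A l k := by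
      have e3 : ∫ p, ((p.1 k * p.1 l * (p.2 k * p.2 l))⁻¹)⁻¹
          * (al k l p.1 * al l k p.2) ^ 2 ∂(P.prod P)
          = ∫ p, (p.1 k * p.1 l * al k l p.1 ^ 2) * (p.2 l * p.2 k * al l k p.2 ^ 2)
            ∂(P.prod P) := by
        refine integral_congr_ae (Filter.Eventually.of_forall fun p => ?_)
        simp only [inv_inv]
        ring
      rw [e3, integral_prod_mul (fun y : Fin n → ℝ => y k * y l * al k l y ^ 2)
        (fun y : Fin n → ℝ => y l * y k * al l k y ^ 2), hA]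
    rw [e1, e2] at hc
    have h1 := hpp k l
    have h2 : (∫ p, (p.1 k - p.2 k) * (p.1 l - p.2 l) * (al k l p.1 * al l k p.2)
        ∂(P.prod P)) ^ 2 ≤ J ^ 2 * (A k l * A l k) :=
      hc.trans (mul_le_mul_of_nonneg_right h1 (mul_nonneg (hA0 k l) (hA0 l k)))
    have h3 : J ^ 2 * (A k l * A l k) ≤ (J * ((A k l + A l k) / 2)) ^ 2 := by
      have h4 : A k l * A l k ≤ ((A k l + A l k) / 2) ^ 2 := by
        nlinarith [sq_nonneg (A k l - A l k)]
      calc J ^ 2 * (A k l * A l k) ≤ J ^ 2 * ((A k l + A l k) / 2) ^ 2 :=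
            mul_le_mul_of_nonneg_left h4 (sq_nonneg _)
        _ = _ := by ring
    have h5 : 0 ≤ J * ((A k l + A l k) / 2) := by
      have := hA0 k l
      have := hA0 l k
      positivity
    exact le_of_sq_le_sq (h2.trans h3) h5
  -- the sum of the numbers
  have hsum : ∑ k, ∑ l, A k l = ∫ y, sgm V Z y ∂P := by
    have e1 : ∫ y, sgm V Z y ∂P = ∫ y, ∑ l, ∑ k, y k * y l * al k l y ^ 2 ∂P := by
      refine integral_congr_ae ?_
      filter_upwards [hae] with y hy
      rw [(hS n m V Z hV y hy).2.1]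
      refine Finset.sum_congr rfl fun l _ => ?_
      rw [← two_par V y (hq y hy) (rr V Z y l), Finset.mul_sum, hal]
      exact Finset.sum_congr rfl fun k _ => by ring
    rw [e1, integral_finsetSum _ fun l _ => integrable_finsetSum _ fun k _ => iA k l,
      Finset.sum_comm]
    refine Finset.sum_congr rfl fun l _ => ?_
    rw [integral_finsetSum _ fun k _ => iA k l, hA]
  -- the two point identity
  have hbb : ∀ i j, Integrable (fun y => BB V Z y i j) P := fun i j => hint _ (cB i j)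
  have hid : ∫ p, (∑ a, ∑ b, (BB V Z p.1 a b - BB V Z p.2 a b)
      * (BB V Z p.1 b a - BB V Z p.2 b a)) ∂(P.prod P)
      = 2 * ∫ y, Matrix.trace (BB V Z y * BB V Z y) ∂P := by
    have i2 : ∀ a b, Integrable (fun y => BB V Z y a b * BB V Z y b a) P :=
      fun a b => hint _ ((cB a b).mul (cB b a))
    have j1 : ∀ a b, Integrable (fun p : (Fin n → ℝ) × (Fin n → ℝ) =>
        BB V Z p.1 a b * BB V Z p.1 b a) (P.prod P) := fun a b =>
      two_int ha hb (c1 _ ((cB a b).mul (cB b a)))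
    have j2 : ∀ a b, Integrable (fun p : (Fin n → ℝ) × (Fin n → ℝ) =>
        BB V Z p.2 a b * BB V Z p.2 b a) (P.prod P) := fun a b =>
      two_int ha hb (c2 _ ((cB a b).mul (cB b a)))
    have j3 : ∀ a b, Integrable (fun p : (Fin n → ℝ) × (Fin n → ℝ) =>
        BB V Z p.1 a b * BB V Z p.2 b a) (P.prod P) := fun a b =>
      (hbb a b).mul_prod (hbb b a)
    have e1 : ∀ a b, ∫ p, (BB V Z p.1 a b - BB V Z p.2 a b)
        * (BB V Z p.1 b a - BB V Z p.2 b a) ∂(P.prod P)
        = 2 * ∫ y, BB V Z y a b * BB V Z y b a ∂P := by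
      intro a b
      have e2 : ∫ p, (BB V Z p.1 a b - BB V Z p.2 a b)
          * (BB V Z p.1 b a - BB V Z p.2 b a) ∂(P.prod P)
          = ∫ p, ((BB V Z p.1 a b * BB V Z p.1 b a + BB V Z p.2 a b * BB V Z p.2 b a)
            - (BB V Z p.1 a b * BB V Z p.2 b a + BB V Z p.1 b a * BB V Z p.2 a b))
            ∂(P.prod P) := by
        refine integral_congr_ae (Filter.Eventually.of_forall fun p => ?_)
        ring
      have j4 : Integrable (fun p : (Fin n → ℝ) × (Fin n → ℝ) =>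
          BB V Z p.1 a b * BB V Z p.1 b a + BB V Z p.2 a b * BB V Z p.2 b a) (P.prod P) :=
        (j1 a b).add (j2 a b)
      have j5 : Integrable (fun p : (Fin n → ℝ) × (Fin n → ℝ) =>
          BB V Z p.1 a b * BB V Z p.2 b a + BB V Z p.1 b a * BB V Z p.2 a b) (P.prod P) :=
        (j3 a b).add (j3 b a)
      have e3 : ∫ p, BB V Z p.1 a b * BB V Z p.1 b a ∂(P.prod P)
          = ∫ y, BB V Z y a b * BB V Z y b a ∂P := by
        have := integral_prod_mul (μ := P) (ν := P)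
          (fun y : Fin n → ℝ => BB V Z y a b * BB V Z y b a) (fun _ : Fin n → ℝ => (1 : ℝ))
        simpa using this
      have e4 : ∫ p, BB V Z p.2 a b * BB V Z p.2 b a ∂(P.prod P)
          = ∫ y, BB V Z y a b * BB V Z y b a ∂P := by
        have := integral_prod_mul (μ := P) (ν := P) (fun _ : Fin n → ℝ => (1 : ℝ))
          (fun y : Fin n → ℝ => BB V Z y a b * BB V Z y b a)
        simpa using this
      rw [e2, integral_sub j4 j5, integral_add (j1 a b) (j2 a b),
        integral_add (j3 a b) (j3 b a), e3, e4,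
        integral_prod_mul (fun y => BB V Z y a b) (fun y => BB V Z y b a),
        integral_prod_mul (fun y => BB V Z y b a) (fun y => BB V Z y a b), hB a b, hB b a]
      ring
    have j6 : ∀ a b, Integrable (fun p : (Fin n → ℝ) × (Fin n → ℝ) =>
        (BB V Z p.1 a b - BB V Z p.2 a b) * (BB V Z p.1 b a - BB V Z p.2 b a))
        (P.prod P) := fun a b => two_int ha hb
      (((c1 _ (cB a b)).sub (c2 _ (cB a b))).mul ((c1 _ (cB b a)).sub (c2 _ (cB b a))))
    rw [integral_finsetSum _ fun a _ => integrable_finsetSum _ fun b _ => j6 a b]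
    simp only [Matrix.trace, Matrix.diag, Matrix.mul_apply]
    rw [integral_finsetSum _ fun a _ => integrable_finsetSum _ fun b _ => i2 a b,
      Finset.mul_sum]
    refine Finset.sum_congr rfl fun a _ => ?_
    rw [integral_finsetSum _ fun b _ => j6 a b, integral_finsetSum _ fun b _ => i2 a b,
      Finset.mul_sum]
    exact Finset.sum_congr rfl fun b _ => e1 a b
  have hid2 : ∫ p, (∑ a, ∑ b, (BB V Z p.1 a b - BB V Z p.2 a b)
      * (BB V Z p.1 b a - BB V Z p.2 b a)) ∂(P.prod P)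
      = ∫ p, ∑ k, ∑ l, (p.1 k - p.2 k) * (p.1 l - p.2 l) * (al k l p.1 * al l k p.2)
        ∂(P.prod P) := by
    refine integral_congr_ae ?_
    filter_upwards [hae1, hae2] with p hp1 hp2
    rw [two_tr V Z p.1 p.2 (hq _ hp1) (hq _ hp2), hal]
  have jt : ∀ k l, Integrable (fun p : (Fin n → ℝ) × (Fin n → ℝ) =>
      (p.1 k - p.2 k) * (p.1 l - p.2 l) * (al k l p.1 * al l k p.2)) (P.prod P) :=
    fun k l => two_int ha hb
      ((((c1 _ (cy k)).sub (c2 _ (cy k))).mul ((c1 _ (cy l)).sub (c2 _ (cy l)))).mul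
        ((c1 _ (cal k l)).mul (c2 _ (cal l k))))
  rw [hid, integral_finsetSum _ fun k _ => integrable_finsetSum _ fun l _ => jt k l] at hid2
  have hle : ∑ k, ∫ p, ∑ l, (p.1 k - p.2 k) * (p.1 l - p.2 l) * (al k l p.1 * al l k p.2)
      ∂(P.prod P) ≤ ∑ k, ∑ l, J * ((A k l + A l k) / 2) := by
    refine Finset.sum_le_sum fun k _ => ?_
    rw [integral_finsetSum _ fun l _ => jt k l]
    exact Finset.sum_le_sum fun l _ => hterm k l
  have hfin : ∑ k, ∑ l, J * ((A k l + A l k) / 2) = J * ∫ y, sgm V Z y ∂P := by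
    rw [← hsum]
    have e1 : ∑ k, ∑ l, J * ((A k l + A l k) / 2)
        = J / 2 * (∑ k, ∑ l, A k l) + J / 2 * (∑ k, ∑ l, A l k) := by
      simp only [Finset.mul_sum]
      rw [← Finset.sum_add_distrib]
      refine Finset.sum_congr rfl fun k _ => ?_
      rw [← Finset.sum_add_distrib]
      exact Finset.sum_congr rfl fun l _ => by ring
    rw [e1, Finset.sum_comm (f := fun k l => A l k)]
    ring
  rw [hfin, ← hid2] at hle
  linarith

end Pool.Agent.Helper70.GR
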